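import Pool.Agent.H29.KWk

set_option autoImplicit false

namespace Pool.Agent.Results.MP_a2bed5_pr.Convex

open MeasureTheory Pool.Agent.H29.KWk

theorem result (k : ℕ) (T S : Measure ℝ) [IsProbabilityMeasure T] [IsProbabilityMeasure S]
    (hT : ∀ᵐ t ∂T, 0 ≤ t) (hS : ∀ᵐ s ∂S, 0 ≤ s) (h0 : T ≠ Measure.dirac 0)
    (π : Measure (Fin (k + 1) → ℝ)) (hπ : Stationary T S π)
    (i j l : Fin (k + 1)) (hij : (i : ℕ) + 1 = j) (hjl : (j : ℕ) + 1 = l) :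
    2 * ∫⁻ w, ENNReal.ofReal (w j) ∂π ≤
      ∫⁻ w, ENNReal.ofReal (w i) ∂π + ∫⁻ w, ENNReal.ofReal (w l) ∂π :=
  convex T hS hT h0 hπ hij hjl

end Pool.Agent.Results.MP_a2bed5_pr.Convex
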